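import Pool.Agent.LibRG65.F

/-!
# MP_da7b07_ag: potentials of invariant singular Kähler–Einstein metrics on group compactifications
are Hölder

`G` is a complex reductive group of matrices in a basis such that `G` is closed under conjugate
transpose and a maximal torus is diagonal (the structure `RG` records the standard facts: closed
group, weights `m_j`, root spaces, Cartan decomposition), `K` its maximal compact subgroup of
unitary elements, `X` the closure of `{[g] : g ∈ G}` in the projective space of matrices: after a
diagonal change of coordinates these are all the polarised `G × G`-equivariant compactifications of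
all reductive groups.  `Sp` says that no nonzero element of the Lie algebra of the torus is scalar.
`Φ` is the potential on `G` of a Kähler–Einstein metric invariant under `K × K`, and
`relg c Φ = Φ - c log ‖g‖²` its potential relative to the Fubini–Study metric.  The Hessian is
taken in the holomorphic left invariant frame (`RG.LV`).
-/

set_option autoImplicit false

open MeasureTheory
open scoped InnerProductSpace ComplexOrder Matrix

namespace Pool.Agent.Results.MP_da7b07_ag.GroupKE

open Pool.Agent.LibTK94 Pool.Agent.LibHK65 Pool.Agent.LibRG65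

theorem result (n : ℕ) (ι β : Type) [Fintype ι] [DecidableEq ι] [Fintype β] [DecidableEq β]
    (R : RG n ι β) (hS : R.Sp) (c : ℝ) (hc : 0 < c) (lam : ℝ)
    (Φ : Matrix ι ι ℂ → ℝ) (hΦ : R.Smooth 4 Φ) (hinv : R.Inv Φ)
    (hpos : ∀ g ∈ R.G, (R.LV Φ g).PosDef)
    (hbd : ∃ C0 : ℝ, ∀ g ∈ R.G, |relg c Φ g| ≤ C0)
    (hKE : ∀ g ∈ R.G, R.LV (fun g' => Real.log (R.LV Φ g').det.re) g =
      (-(lam : ℂ)) • R.LV Φ g) :
    ∃ C > (0 : ℝ), ∃ α > (0 : ℝ), ∀ g ∈ R.G, ∀ g' ∈ R.G,
      |relg c Φ g - relg c Φ g'| ≤ C * fsDist (vecM g) (vecM g') ^ α :=
  group_holder R hS c hc lam Φ hΦ hinv hpos hbd hKE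

end Pool.Agent.Results.MP_da7b07_ag.GroupKE
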