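import Pool.Agent.LibHK65.F

/-!
# MP_da7b07_ag: potentials of invariant singular Kähler–Einstein metrics on horospherical
varieties are Hölder

`(w, u) ∈ ℂⁿ × ℂᵈ` are the coordinates of the big cell of a horospherical variety `X`, the closure
of `G · [∑ v_χ]` (`v_χ` highest weight vectors of a reductive group `G`, `χ` characters of the
parabolic subgroup `P`): `w` are logarithmic coordinates of the torus `P/H`, `u` coordinates of
the unipotent radical of the opposite parabolic subgroup, the homogeneous coordinates are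
`exp ⟨wt j, w⟩ q_j(u)`, where the `q_j` of one weight `χ` are the coordinates of `exp(u) v_χ`, of
squared norm `exp (⟨χ, ν(u)⟩ + ν0(u))` by the Iwasawa decomposition.  `Φ` is the potential of a
Kähler–Einstein metric invariant under the maximal compact subgroup: `Φ - c log ‖Z‖²` is a
function of `2 Re w + ν(u)`.  For `d = 0` these are the toric varieties.
-/

set_option autoImplicit false

open MeasureTheory
open scoped InnerProductSpace ComplexOrder

namespace Pool.Agent.Results.MP_da7b07_ag.HorosphericalKE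

open Pool.Agent.LibTK94 Pool.Agent.LibHK65

theorem result (n d : ℕ) (J : Type) [Fintype J] (wt : J → Fin n → ℤ)
    (hS : ∀ x : Fin n → ℝ, (∀ i j : J, ∑ k, ((wt i k : ℝ) - (wt j k : ℝ)) * x k = 0) → x = 0)
    (q : J → (Fin d → ℂ) → ℂ) (ν : (Fin d → ℂ) → Fin n → ℝ) (ν0 : (Fin d → ℂ) → ℝ)
    (hν : ContDiff ℝ 2 ν) (hν0 : ContDiff ℝ 2 ν0) (h1 : ν 0 = 0) (h10 : ν0 0 = 0)
    (h2 : fderiv ℝ ν 0 = 0)
    (hN : ∀ (i : J) (u : Fin d → ℂ), ∑ j with wt j = wt i, ‖q j u‖ ^ 2 =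
      Real.exp (∑ k, (wt i k : ℝ) * ν u k + ν0 u))
    (c : ℝ) (hc : 0 < c) (lam : ℝ) (Φ : (Fin n ⊕ Fin d → ℂ) → ℝ) (hΦ : ContDiff ℝ 4 Φ)
    (hinv : ∀ z z' : Fin n ⊕ Fin d → ℂ,
      (∀ k, 2 * (z (Sum.inl k)).re + ν (uu z) k = 2 * (z' (Sum.inl k)).re + ν (uu z') k) →
      relh wt q c Φ z = relh wt q c Φ z')
    (hpos : ∀ z, (lev Φ z).PosDef)
    (hbd : ∃ C0 : ℝ, ∀ z, |relh wt q c Φ z| ≤ C0)
    (hKE : ∀ z, lev (fun z => Real.log (lev Φ z).det.re) z = (-(lam : ℂ)) • lev Φ z) :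
    ∃ C > (0 : ℝ), ∃ α > (0 : ℝ), ∀ z z' : Fin n ⊕ Fin d → ℂ,
      |relh wt q c Φ z - relh wt q c Φ z'| ≤ C * fsDist (Zh wt q z) (Zh wt q z') ^ α :=
  horo_holder n d J wt hS q ν ν0 hν hν0 h1 h10 h2 hN c hc lam Φ hΦ hinv hpos hbd hKE

end Pool.Agent.Results.MP_da7b07_ag.HorosphericalKE
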